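import Pool.Agent.helper35.LV.Spec

/-!
# Row lv:WD (MP_a2a22c_al)
-/

set_option autoImplicit false

namespace Pool.Agent.LV

open Matrix Pool.Agent.H48SL Pool.Agent.UG

/-- The row which vanishes on `W`. -/
theorem WD_row {n : ℕ} (W : Submodule ℤ (Fin n → ℤ)) (v₁ : Fin n → ℤ) (hv : ∀ c : ℤ, c ≠ 0 → c • v₁ ∉ W)
    (hr : ∀ v : Fin n → ℤ, ∃ a b : ℤ, a ≠ 0 ∧ a • v + b • v₁ ∈ W) :
    ∃ (A : ℤ) (ψ₀ : Fin n → ℤ), 0 < A ∧ ψ₀ ≠ 0 ∧ (∀ w ∈ W, ψ₀ ⬝ᵥ w = 0) ∧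
      ∀ v, A • v - (ψ₀ ⬝ᵥ v) • v₁ ∈ W := by
  classical
  choose a b ha hab using fun p : Fin n => hr (Pi.single p 1)
  obtain ⟨A, hA⟩ : ∃ A, A = ∏ p, a p := ⟨_, rfl⟩
  have hA0 : A ≠ 0 := by
    rw [hA]
    exact Finset.prod_ne_zero_iff.2 fun p _ => ha p
  obtain ⟨ψ, hψ⟩ : ∃ ψ : Fin n → ℤ, ψ = fun p => -(b p * ∏ q ∈ Finset.univ.erase p, a q) := ⟨_, rfl⟩
  have hp : ∀ p, a p * ∏ q ∈ Finset.univ.erase p, a q = A := fun p => by
    rw [hA]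
    exact Finset.mul_prod_erase _ _ (Finset.mem_univ p)
  have h1 : ∀ v : Fin n → ℤ, A • v - (ψ ⬝ᵥ v) • v₁ ∈ W := by
    intro v
    have e1 : A • v - (ψ ⬝ᵥ v) • v₁ = ∑ p, (v p * ∏ q ∈ Finset.univ.erase p, a q) • (a p • Pi.single p 1 + b p • v₁) := by
      have e2 : A • v = ∑ p, (A * v p) • (Pi.single p 1 : Fin n → ℤ) := by
        ext i
        simp [Finset.sum_apply, Pi.single_apply]
      have e3 : (ψ ⬝ᵥ v) • v₁ = ∑ p, (ψ p * v p) • v₁ := by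
        rw [dotProduct, Finset.sum_smul]
      rw [e2, e3, ← Finset.sum_sub_distrib]
      refine Finset.sum_congr rfl fun p _ => ?_
      rw [← hp p, hψ, smul_add, smul_smul, smul_smul, sub_eq_add_neg, ← neg_smul]
      congr 2 <;> ring
    rw [e1]
    exact W.sum_mem fun p _ => W.smul_mem _ (hab p)
  have h2 : ∀ w ∈ W, ψ ⬝ᵥ w = 0 := by
    intro w hw
    by_contra h
    have h3 := W.sub_mem (W.smul_mem A hw) (h1 w)
    rw [sub_sub_cancel] at h3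
    exact hv _ h h3
  have h3 : ψ ⬝ᵥ v₁ = A := by
    by_contra h
    have h4 := h1 v₁
    rw [← sub_smul] at h4
    exact hv _ (fun h5 => h (by omega)) h4
  refine ⟨A * A, A • ψ, mul_self_pos.2 hA0, ?_, fun w hw => ?_, fun v => ?_⟩
  · intro h
    have h4 : (A • ψ) ⬝ᵥ v₁ = 0 := by rw [h, zero_dotProduct]
    rw [smul_dotProduct, h3, smul_eq_mul] at h4
    exact hA0 (mul_self_eq_zero.1 h4)
  · rw [smul_dotProduct, h2 w hw, smul_zero]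
  · have h4 := W.smul_mem A (h1 v)
    rw [smul_sub, smul_smul, smul_smul] at h4
    rw [smul_dotProduct, smul_eq_mul]
    exact h4

theorem WD : WD_stmt := by
  classical
  intro n H H' W v₁ hH hv hr hPW
  obtain ⟨A, ψ₀, hA, h0, hW, hAv⟩ := WD_row W v₁ hv hr
  refine ⟨ψ₀, h0, fun x ψ hψ0 hψx => ?_⟩
  have hmem : A • ψ ∈ W := by
    have h1 := hAv ψ
    rw [dotProduct_comm, hψ0, zero_smul, sub_zero] at h1
    exact h1
  obtain ⟨j, hj, h, hh, h1, h2⟩ := hPW (A • ψ) hmem x (by rw [dotProduct_smul, dotProduct_comm, hψx, smul_zero])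
  obtain ⟨m, hm⟩ : ∃ m : Fin n → ℤ, m = (h : Matrix (Fin n) (Fin n) ℤ) *ᵥ v₁ - v₁ - ((j : ℤ) * (x ⬝ᵥ v₁)) • (A • ψ) := ⟨_, rfl⟩
  have hAm : ∀ v : Fin n → ℤ, A • ((h : Matrix (Fin n) (Fin n) ℤ) *ᵥ v - v - ((j : ℤ) * (x ⬝ᵥ v)) • (A • ψ)) =
      (ψ₀ ⬝ᵥ v) • m := by
    intro v
    have h3 := h1 _ (hAv v)
    rw [mulVec_sub, mulVec_smul, mulVec_smul, dotProduct_sub, dotProduct_smul, dotProduct_smul, smul_eq_mul, smul_eq_mul] at h3
    have h4 : A • ((h : Matrix (Fin n) (Fin n) ℤ) *ᵥ v) = (ψ₀ ⬝ᵥ v) • ((h : Matrix (Fin n) (Fin n) ℤ) *ᵥ v₁) +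
        (A • v - (ψ₀ ⬝ᵥ v) • v₁) + ((j : ℤ) * (A * (x ⬝ᵥ v) - (ψ₀ ⬝ᵥ v) * (x ⬝ᵥ v₁))) • (A • ψ) := by
      rw [sub_eq_iff_eq_add] at h3
      rw [h3]
      abel
    rw [smul_sub, smul_sub, h4, hm, smul_sub, smul_sub, smul_smul A ((j : ℤ) * (x ⬝ᵥ v)),
      smul_smul (ψ₀ ⬝ᵥ v) ((j : ℤ) * (x ⬝ᵥ v₁))]
    have h5 : (j : ℤ) * (A * (x ⬝ᵥ v) - (ψ₀ ⬝ᵥ v) * (x ⬝ᵥ v₁)) =
        A * ((j : ℤ) * (x ⬝ᵥ v)) - (ψ₀ ⬝ᵥ v) * ((j : ℤ) * (x ⬝ᵥ v₁)) := by ring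
    rw [h5, sub_smul]
    abel
  have hAQ : (A : ℚ) ≠ 0 := by exact_mod_cast hA.ne'
  obtain ⟨β, hβ⟩ : ∃ β : Fin n → ℚ, β = fun p => (m p : ℚ) / A := ⟨_, rfl⟩
  refine ⟨j * A.toNat, ?_, h.transpose, ?_, β, ?_, ?_⟩
  · have : 0 < A.toNat := by omega
    exact Nat.mul_pos hj this
  · rw [hH]
    have ht : h.transpose.transpose = h := SL_ext (Matrix.transpose_transpose _)
    rw [ht]
    exact hh
  · have h3 : ψ₀ ⬝ᵥ m = 0 := by
      rw [hm, dotProduct_sub, hW _ (h2 v₁), dotProduct_smul, dotProduct_smul, dotProduct_comm ψ₀ ψ, hψ0, smul_zero,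
        smul_zero, sub_zero]
    have h4 : castV ψ₀ ⬝ᵥ castV m = 0 := by rw [castV_dot, h3, Int.cast_zero]
    have h5 : β = (A : ℚ)⁻¹ • castV m := by
      rw [hβ]
      funext p
      simp only [Pi.smul_apply, castV, smul_eq_mul]
      rw [div_eq_inv_mul]
    rw [h5, smul_dotProduct, dotProduct_comm, h4, smul_zero]
  · ext p q
    have h3 : A * ((h : Matrix (Fin n) (Fin n) ℤ) q p - (1 : Matrix (Fin n) (Fin n) ℤ) p q - (j : ℤ) * x p * (A * ψ q)) =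
        ψ₀ p * m q := by
      have h4 := congrFun (hAm (Pi.single p 1)) q
      simp only [Pi.smul_apply, Pi.sub_apply, smul_eq_mul, mulVec_single_one, dotProduct_single, mul_one, col_apply] at h4
      rw [Matrix.one_apply]
      rw [Pi.single_apply] at h4
      by_cases hpq : p = q
      · rw [if_pos hpq]
        rw [if_pos hpq.symm] at h4
        exact h4
      · rw [if_neg hpq]
        rw [if_neg (Ne.symm hpq)] at h4
        exact h4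
    have hAn : ((A.toNat : ℕ) : ℚ) = (A : ℚ) := by
      have : ((A.toNat : ℕ) : ℤ) = A := Int.toNat_of_nonneg hA.le
      exact_mod_cast congrArg (Int.cast : ℤ → ℚ) this
    have h5 : (A : ℚ) * (((h : Matrix (Fin n) (Fin n) ℤ) q p : ℚ) - ((1 : Matrix (Fin n) (Fin n) ℤ) p q : ℚ) -
        (j : ℚ) * x p * (A * ψ q)) = ψ₀ p * m q := by exact_mod_cast h3
    have h6 : (((1 : Matrix (Fin n) (Fin n) ℤ) p q : ℤ) : ℚ) = (1 : Matrix (Fin n) (Fin n) ℚ) p q := by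
      rw [Matrix.one_apply, Matrix.one_apply]
      split_ifs <;> simp
    rw [h6] at h5
    rw [qg_apply]
    simp only [Matrix.add_apply, vecMulVec_apply, Pi.smul_apply, smul_eq_mul, castV, hβ]
    have h7 : ((h.transpose : SLZ n) : Matrix (Fin n) (Fin n) ℤ) p q = (h : Matrix (Fin n) (Fin n) ℤ) q p := rfl
    rw [h7]
    push_cast
    rw [hAn]
    field_simp
    linarith

end Pool.Agent.LV
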