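import Pool.Agent.helper35.LV.Spec

/-!
# Row lv:T2A (MP_a2a22c_al)
-/

set_option autoImplicit false

namespace Pool.Agent.LV

open Matrix Pool.Agent.H48SL Pool.Agent.UG

theorem T2A_ext {n : ℕ} {a b : SLZ n}
    (h : ∀ v : Fin n → ℤ, (a : Matrix (Fin n) (Fin n) ℤ) *ᵥ v = (b : Matrix (Fin n) (Fin n) ℤ) *ᵥ v) : a = b := by
  apply SL_ext
  ext i p
  have := congrFun (h (Pi.single p 1)) i
  simpa using this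

/-- The commutator. -/
theorem T2A_comm {n : ℕ} (H : Subgroup (SLZ n)) (W : Submodule ℤ (Fin n → ℤ)) (hPQ : PQ H W) (κ : SLZ n)
    (hκ : κ ∈ H) (hU : κ ∈ Uni W) (x ψ : Fin n → ℤ) (hW : ∀ w ∈ W, ψ ⬝ᵥ w = 0) (hx : ψ ⬝ᵥ x = 0) :
    ∃ j : ℕ, 1 ≤ j ∧ tv ((κ : Matrix (Fin n) (Fin n) ℤ) *ᵥ x - x) (-(j : ℤ) • ψ) ∈ H := by
  obtain ⟨hU1, hU2⟩ := mem_Uni.1 hU
  obtain ⟨j, hj, h, hh, h1, h2⟩ := hPQ x ψ hW hx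
  refine ⟨j, hj, ?_⟩
  have hX0 : ∀ u, ψ ⬝ᵥ ((κ : Matrix (Fin n) (Fin n) ℤ) *ᵥ u - u) = 0 := fun u => hW _ (hU2 u)
  have hdot : (-(j : ℤ) • ψ) ⬝ᵥ ((κ : Matrix (Fin n) (Fin n) ℤ) *ᵥ x - x) = 0 := by
    rw [smul_dotProduct, hX0, smul_zero]
  have key : κ * tv ((κ : Matrix (Fin n) (Fin n) ℤ) *ᵥ x - x) (-(j : ℤ) • ψ) * h = h * κ := by
    apply T2A_ext
    intro u
    obtain ⟨w, hw⟩ : ∃ w, w = (h : Matrix (Fin n) (Fin n) ℤ) *ᵥ u - u - ((j : ℤ) * (ψ ⬝ᵥ u)) • x := ⟨_, rfl⟩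
    have hwW : w ∈ W := hw ▸ h2 u
    have hu : (h : Matrix (Fin n) (Fin n) ℤ) *ᵥ u = u + ((j : ℤ) * (ψ ⬝ᵥ u)) • x + w := by
      rw [hw]
      abel
    have hψ : ψ ⬝ᵥ ((h : Matrix (Fin n) (Fin n) ℤ) *ᵥ u) = ψ ⬝ᵥ u := by
      rw [hu, dotProduct_add, dotProduct_add, dotProduct_smul, hx, smul_zero, hW w hwW, add_zero, add_zero]
    rw [mv_mul, mv_mul, mv_mul, tv_mulVec hdot, smul_dotProduct, hψ, mulVec_add, mulVec_smul,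
      hU1 _ (hU2 x), hu, mulVec_add, mulVec_add, mulVec_smul, hU1 w hwW]
    have e1 : (h : Matrix (Fin n) (Fin n) ℤ) *ᵥ ((κ : Matrix (Fin n) (Fin n) ℤ) *ᵥ u) =
        (h : Matrix (Fin n) (Fin n) ℤ) *ᵥ u + ((κ : Matrix (Fin n) (Fin n) ℤ) *ᵥ u - u) := by
      have e2 := h1 _ (hU2 u)
      rw [mulVec_sub] at e2
      rw [sub_eq_iff_eq_add] at e2
      rw [e2]
      abel
    rw [e1, hu]
    have e3 : (-(j : ℤ) • (ψ ⬝ᵥ u)) = -((j : ℤ) * (ψ ⬝ᵥ u)) := by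
      rw [neg_smul, smul_eq_mul]
    rw [e3, neg_smul, smul_sub]
    abel
  have key2 : tv ((κ : Matrix (Fin n) (Fin n) ℤ) *ᵥ x - x) (-(j : ℤ) • ψ) = κ⁻¹ * (h * κ) * h⁻¹ := by
    rw [← key]
    group
  rw [key2]
  exact H.mul_mem (H.mul_mem (H.inv_mem hκ) (H.mul_mem hh hκ)) (H.inv_mem hh)

/-- Two bad rows. -/
theorem T2A_bad {n : ℕ} (κ : SLZ n) (hκ1 : κ ≠ 1) (ψ ψ' y : Fin n → ℤ) (hy : ψ' ⬝ᵥ y = 0) (hy' : ψ ⬝ᵥ y ≠ 0)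
    (h : ∀ x, ψ ⬝ᵥ x = 0 → (κ : Matrix (Fin n) (Fin n) ℤ) *ᵥ x - x = 0)
    (h' : ∀ x, ψ' ⬝ᵥ x = 0 → (κ : Matrix (Fin n) (Fin n) ℤ) *ᵥ x - x = 0) : False := by
  apply hκ1
  apply T2A_ext
  intro u
  rw [mv_one]
  have h1 := h ((ψ ⬝ᵥ y) • u - (ψ ⬝ᵥ u) • y) (by
    rw [dotProduct_sub, dotProduct_smul, dotProduct_smul, smul_eq_mul, smul_eq_mul]
    ring)
  have h2 := h' y hy
  rw [mulVec_sub, mulVec_smul, mulVec_smul] at h1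
  rw [sub_eq_zero] at h2
  rw [h2] at h1
  have h3 : (ψ ⬝ᵥ y) • ((κ : Matrix (Fin n) (Fin n) ℤ) *ᵥ u - u) = 0 := by
    rw [smul_sub, ← h1]
    abel
  rcases smul_eq_zero.1 h3 with h4 | h4
  · exact absurd h4 hy'
  · exact sub_eq_zero.1 h4

theorem T2A_fin {n : ℕ} (hn : 3 ≤ n) (H : Subgroup (SLZ n)) (hD : ZDense H) (W : Submodule ℤ (Fin n → ℤ)) (hPQ : PQ H W)
    (κ : SLZ n) (hκ : κ ∈ H) (hU : κ ∈ Uni W) (ψ₁ ψ₂ y y' : Fin n → ℤ) (h1 : ∀ w ∈ W, ψ₁ ⬝ᵥ w = 0)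
    (h2 : ∀ w ∈ W, ψ₂ ⬝ᵥ w = 0) (hy1 : ψ₁ ⬝ᵥ y = 0) (hy2 : ψ₂ ⬝ᵥ y ≠ 0) (hy' : ψ₁ ⬝ᵥ y' ≠ 0)
    (hb1 : ¬ ∀ x, ψ₁ ⬝ᵥ x = 0 → (κ : Matrix (Fin n) (Fin n) ℤ) *ᵥ x - x = 0)
    (hb2 : ¬ ∀ x, ψ₂ ⬝ᵥ x = 0 → (κ : Matrix (Fin n) (Fin n) ℤ) *ᵥ x - x = 0) : H.FiniteIndex := by
  push Not at hb1 hb2
  obtain ⟨x₁, hx1, hX1⟩ := hb1
  obtain ⟨x₂, hx2, hX2⟩ := hb2
  obtain ⟨hU1, hU2⟩ := mem_Uni.1 hU
  obtain ⟨j₁, hj1, hz1⟩ := T2A_comm H W hPQ κ hκ hU x₁ ψ₁ h1 hx1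
  obtain ⟨j₂, hj2, hz2⟩ := T2A_comm H W hPQ κ hκ hU x₂ ψ₂ h2 hx2
  obtain ⟨e₁, he1⟩ : ∃ e, e = (κ : Matrix (Fin n) (Fin n) ℤ) *ᵥ x₁ - x₁ := ⟨_, rfl⟩
  obtain ⟨e₂, he2⟩ : ∃ e, e = (κ : Matrix (Fin n) (Fin n) ℤ) *ᵥ x₂ - x₂ := ⟨_, rfl⟩
  have hW1 : e₁ ∈ W := he1 ▸ hU2 x₁
  have hW2 : e₂ ∈ W := he2 ▸ hU2 x₂
  rw [← he1] at hz1 hX1
  rw [← he2] at hz2 hX2
  have d11 : (-(j₁ : ℤ) • ψ₁) ⬝ᵥ e₁ = 0 := by rw [smul_dotProduct, h1 _ hW1, smul_zero]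
  have d22 : (-(j₂ : ℤ) • ψ₂) ⬝ᵥ e₂ = 0 := by rw [smul_dotProduct, h2 _ hW2, smul_zero]
  have d12 : (-(j₁ : ℤ) • ψ₁) ⬝ᵥ e₂ = 0 := by rw [smul_dotProduct, h1 _ hW2, smul_zero]
  have d21 : (-(j₂ : ℤ) • ψ₂) ⬝ᵥ e₁ = 0 := by rw [smul_dotProduct, h2 _ hW1, smul_zero]
  refine (final_coef (by rw [Fintype.card_fin]; exact hn) H e₁ (-(j₁ : ℤ) • ψ₁) (tv e₁ (-(j₁ : ℤ) • ψ₁))
    (tv e₂ (-(j₂ : ℤ) • ψ₂)) hz1 hz2 ?_ (tv_coe d11) ?_ (Or.inr ?_)).1 hD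
  · intro h
    have h3 := tv_mulVec d11 y'
    rw [h, mv_one, smul_dotProduct] at h3
    have h4 : (-(j₁ : ℤ) • (ψ₁ ⬝ᵥ y')) • e₁ = 0 := by
      have := h3.symm
      rwa [add_eq_left] at this
    rcases smul_eq_zero.1 h4 with h5 | h5
    · rcases smul_eq_zero.1 h5 with h6 | h6
      · omega
      · exact hy' h6
    · exact hX1 h5
  · rw [tv_mulVec d22, d21, zero_smul, add_zero, d11]
    norm_num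
  · intro k hk m h
    have h3 := congrArg (fun g : SLZ n => (g : Matrix (Fin n) (Fin n) ℤ) *ᵥ y) h
    rw [← tv_zsmul_right d11, ← tv_nsmul_right d22] at h3
    rw [tv_mulVec (by rw [smul_dotProduct, d22, smul_zero]), tv_mulVec (by rw [smul_dotProduct, d11, smul_zero])] at h3
    rw [smul_dotProduct, smul_dotProduct, smul_dotProduct, smul_dotProduct, hy1, smul_zero, smul_zero, zero_smul,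
      add_zero, add_eq_left] at h3
    rcases smul_eq_zero.1 h3 with h5 | h5
    · rcases smul_eq_zero.1 h5 with h6 | h6
      · omega
      · rcases smul_eq_zero.1 h6 with h7 | h7
        · omega
        · exact hy2 h7
    · exact hX2 h5

theorem T2A (hCHI : CHI_stmt) : T2A_stmt := by
  intro n hn H hD W x₁ x₂ hx hPQ κ hκ hκ1 hU
  obtain ⟨D, χ₁, χ₂, hD0, hW1, hW2, h11, h12, h21, h22⟩ := hCHI n W x₁ x₂ hx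
  have hW3 : ∀ w ∈ W, (χ₁ + χ₂) ⬝ᵥ w = 0 := fun w hw => by rw [add_dotProduct, hW1 w hw, hW2 w hw, add_zero]
  have h31 : (χ₁ + χ₂) ⬝ᵥ x₁ = D := by rw [add_dotProduct, h11, h21, add_zero]
  have h32 : (χ₁ + χ₂) ⬝ᵥ x₂ = D := by rw [add_dotProduct, h12, h22, zero_add]
  have h33 : (χ₁ + χ₂) ⬝ᵥ (x₁ - x₂) = 0 := by rw [dotProduct_sub, h31, h32, sub_self]
  have h13 : χ₁ ⬝ᵥ (x₁ - x₂) ≠ 0 := by rw [dotProduct_sub, h11, h12, sub_zero]; exact hD0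
  have h23 : χ₂ ⬝ᵥ (x₁ - x₂) ≠ 0 := by rw [dotProduct_sub, h21, h22, zero_sub]; exact neg_ne_zero.2 hD0
  by_cases b1 : ∀ x, χ₁ ⬝ᵥ x = 0 → (κ : Matrix (Fin n) (Fin n) ℤ) *ᵥ x - x = 0
  · exact T2A_fin hn H hD W hPQ κ hκ hU χ₂ (χ₁ + χ₂) x₁ x₂ hW2 hW3 h21 (by rw [h31]; exact hD0)
      (by rw [h22]; exact hD0) (fun b2 => T2A_bad κ hκ1 χ₁ χ₂ x₁ h21 (by rw [h11]; exact hD0) b1 b2)
      (fun b3 => T2A_bad κ hκ1 χ₁ (χ₁ + χ₂) (x₁ - x₂) h33 h13 b1 b3)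
  · by_cases b2 : ∀ x, χ₂ ⬝ᵥ x = 0 → (κ : Matrix (Fin n) (Fin n) ℤ) *ᵥ x - x = 0
    · exact T2A_fin hn H hD W hPQ κ hκ hU χ₁ (χ₁ + χ₂) x₂ x₁ hW1 hW3 h12 (by rw [h32]; exact hD0)
        (by rw [h11]; exact hD0) b1 (fun b3 => T2A_bad κ hκ1 χ₂ (χ₁ + χ₂) (x₁ - x₂) h33 h23 b2 b3)
    · exact T2A_fin hn H hD W hPQ κ hκ hU χ₁ χ₂ x₂ x₁ hW1 hW2 h12 (by rw [h22]; exact hD0)
        (by rw [h11]; exact hD0) b1 b2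

end Pool.Agent.LV
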